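import Pool.Agent.Run7.h115.Growth

/-! A uniform threshold: all the `ε`-blowups of a symplectic manifold at finitely many points made
with Darboux balls of dilatation at most `K` are symplectomorphic, as soon as `K ε < r₀`, where
`r₀` is the radius of a fixed family of Darboux balls. -/

set_option autoImplicit false
set_option maxSynthPendingDepth 3

open scoped ContDiff Topology Manifold
open Set Metric Function

namespace Pool.Agent.Results.MP_d1a3be_gt.BoundedDilatation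

open Run7.h115

/-- Uniqueness of `ε`-blowups at finitely many points, among all Darboux balls of dilatation at
most `K`, for every `ε < r₀ / K`. -/
theorem result
    {E : Type*} [NormedAddCommGroup E] [InnerProductSpace ℂ E] [FiniteDimensional ℂ E]
    {M : Type*} [TopologicalSpace M] [ChartedSpace E M] [IsManifold 𝓘(ℝ, E) ∞ M] [T2Space M]
    {wM : Bil E M} (hM : IsSymplectic wM) {S : Set M} (hS : S.Finite)
    {r₀ : ℝ} {φ₀ : M → E → M} (h₀ : Balls wM S r₀ φ₀) (hc₀ : ∀ p ∈ S, φ₀ p 0 = p)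
    {K ε : ℝ} (hK : 1 ≤ K) (hε : 0 < ε) (hKε : K * ε < r₀)
    {N₁ : Type*} [TopologicalSpace N₁] [ChartedSpace E N₁] [IsManifold 𝓘(ℝ, E) ∞ N₁]
    {w₁ : Bil E N₁} {r₁ : ℝ} {φ₁ : M → E → M} {J₁ : M → N₁} {K₁ : M → E × ℂ → N₁}
    (h₁ : IsBlowup wM S ε w₁ r₁ φ₁ J₁ K₁)
    (hd₁ : ∀ p ∈ S, ∀ x ∈ closedBall (0 : E) ε, φ₁ p x ∈ φ₀ p '' closedBall 0 (K * ‖x‖))
    {N₂ : Type*} [TopologicalSpace N₂] [ChartedSpace E N₂] [IsManifold 𝓘(ℝ, E) ∞ N₂]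
    {w₂ : Bil E N₂} {r₂ : ℝ} {φ₂ : M → E → M} {J₂ : M → N₂} {K₂ : M → E × ℂ → N₂}
    (h₂ : IsBlowup wM S ε w₂ r₂ φ₂ J₂ K₂)
    (hd₂ : ∀ p ∈ S, ∀ x ∈ closedBall (0 : E) ε, φ₂ p x ∈ φ₀ p '' closedBall 0 (K * ‖x‖)) :
    Symplectomorphic w₁ w₂ := by
  obtain ⟨ρ₁, hρ₁, hρ₁r, hU₁⟩ := related_unitary_of_growth hS h₀ h₁.balls
    (fun p hp => by rw [h₁.φ_center p hp, hc₀ p hp]) hε h₁.lt hK hKε hd₁
  obtain ⟨ρ₂, hρ₂, hρ₂r, hU₂⟩ := related_unitary_of_growth hS h₀ h₂.balls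
    (fun p hp => by rw [h₂.φ_center p hp, hc₀ p hp]) hε h₂.lt hK hKε hd₂
  obtain ⟨ρ, hρε, hρ⟩ := exists_between (lt_min hρ₁ hρ₂)
  have hρ1 : ρ < ρ₁ := hρ.trans_le (min_le_left _ _)
  have hρ2 : ρ < ρ₂ := hρ.trans_le (min_le_right _ _)
  obtain ⟨U₁, Γ₁, hΓ₁, hΓ₁φ⟩ := hU₁ ρ hρε hρ1
  obtain ⟨U₂, Γ₂, hΓ₂, hΓ₂φ⟩ := hU₂ ρ hρε hρ2
  -- change the second family of balls by unitary maps
  set V : M → (E ≃ₗᵢ[ℂ] E) := fun p => (U₁ p).trans (U₂ p).symm with hV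
  refine symplectomorphic_of_ambient hM.nondeg h₁ (h₂.reparam V) hS hε
    (Γ := Γ₁.symm.trans Γ₂) (hΓ₁.symm.trans hΓ₂) hρε (hρ1.le.trans hρ₁r) (hρ2.le.trans hρ₂r) ?_
  intro p hp x hx
  have hx' : x ∈ closedBall (0 : E) ρ := ball_subset_closedBall hx
  show Γ₂ (Γ₁.symm (φ₁ p x)) = φ₂ p (V p x)
  have e1 : Γ₁.symm (φ₁ p x) = φ₀ p (U₁ p x) := by
    rw [Equiv.symm_apply_eq]
    exact (hΓ₁φ p hp x hx').symm
  have e2 := hΓ₂φ p hp (V p x) (unitary_mem_closedBall (V p) hx')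
  have e3 : U₂ p (V p x) = U₁ p x := by simp [hV]
  simp only [e3] at e2
  rw [e1, e2]

end Pool.Agent.Results.MP_d1a3be_gt.BoundedDilatation
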