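import Pool.Agent.Run7.h115.CutMain

/-! Uniqueness of blowups along a submanifold of codimension two which is Poincaré dual to a
multiple of the symplectic form. -/

set_option autoImplicit false
set_option maxSynthPendingDepth 3

open scoped ContDiff Topology Manifold
open Set Metric Function
open Run7.h115

universe u v

/-- Let `(M, w)` be a closed symplectic manifold and let `S` be a compact symplectic submanifold of
codimension two whose Poincaré dual class is `c [w]`. Let `ε > 0` with `c π ε² < 1`. Then every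
`ε`-blowup of `M` along `S` is symplectomorphic to `(M, (1 - c π ε²) w)`. In particular, any two
`ε`-blowups of `M` along `S` are symplectomorphic. -/
theorem Pool.Agent.Results.MP_d1a3be_gt.CodimTwoDual.result
    {E : Type u} [NormedAddCommGroup E] [NormedSpace ℝ E] [FiniteDimensional ℝ E]
    {M : Type v} [TopologicalSpace M] [T2Space M] [CompactSpace M] [ChartedSpace E M]
    [IsManifold 𝓘(ℝ, E) ∞ M] {w : Bil E M} (hw : IsSymplectic w)
    {S : Set M} {c : ℝ} (hS : PoincareDual w S c)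
    {ε : ℝ} (hε : 0 < ε) (hc : c * Real.pi * ε ^ 2 < 1)
    -- the first blowup
    {N₁ : Type v} [TopologicalSpace N₁] [ChartedSpace E N₁] [IsManifold 𝓘(ℝ, E) ∞ N₁]
    {w₁ : Bil E N₁} {G₁ : Type u} [NormedAddCommGroup G₁] [NormedSpace ℝ G₁]
    [FiniteDimensional ℝ G₁] {P₁ : Type v} [TopologicalSpace P₁] [CompactSpace P₁]
    [ChartedSpace G₁ P₁] [IsManifold 𝓘(ℝ, G₁) ∞ P₁] [MulAction Circle P₁]
    {r₁ : ℝ} {β₁ : OneForm G₁ P₁} {Φ₁ : P₁ × ℂ → M} {J₁ : M → N₁} {K₁ : P₁ × ℂ → N₁}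
    (h₁ : IsBlowupCodimTwo w S ε w₁ r₁ β₁ Φ₁ J₁ K₁)
    -- the second blowup
    {N₂ : Type v} [TopologicalSpace N₂] [ChartedSpace E N₂] [IsManifold 𝓘(ℝ, E) ∞ N₂]
    {w₂ : Bil E N₂} {G₂ : Type u} [NormedAddCommGroup G₂] [NormedSpace ℝ G₂]
    [FiniteDimensional ℝ G₂] {P₂ : Type v} [TopologicalSpace P₂] [CompactSpace P₂]
    [ChartedSpace G₂ P₂] [IsManifold 𝓘(ℝ, G₂) ∞ P₂] [MulAction Circle P₂]
    {r₂ : ℝ} {β₂ : OneForm G₂ P₂} {Φ₂ : P₂ × ℂ → M} {J₂ : M → N₂} {K₂ : P₂ × ℂ → N₂}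
    (h₂ : IsBlowupCodimTwo w S ε w₂ r₂ β₂ Φ₂ J₂ K₂) :
    Symplectomorphic (fun x => (1 - c * Real.pi * ε ^ 2) • w x) w₁ ∧ Symplectomorphic w₁ w₂ := by
  have k₁ := symplectomorphic_scaled hw h₁ hε hc (hS G₁ P₁ r₁ β₁ Φ₁ h₁.connection h₁.tube)
  have k₂ := symplectomorphic_scaled hw h₂ hε hc (hS G₂ P₂ r₂ β₂ Φ₂ h₂.connection h₂.tube)
  exact ⟨k₁, k₁.symm'.trans' k₂⟩
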