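import Pool.Agent.Run7.h115.Count

/-! For every symplectic manifold `M`, every finite set `S` of points and every `ε > 0`, the
`ε`-blowups of `M` along `S` fall into at most countably many symplectomorphism classes. -/

set_option autoImplicit false
set_option maxSynthPendingDepth 3

open scoped ContDiff Topology Manifold
open Set Metric Function

namespace Pool.Agent.Results.MP_d1a3be_gt.CountablyManyBlowups

open Run7.h115

/-- The `ε`-blowups of a symplectic manifold along a finite set of points, made with arbitrary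
Darboux balls, form at most countably many symplectomorphism classes. -/
theorem result
    {E : Type*} [NormedAddCommGroup E] [InnerProductSpace ℂ E] [FiniteDimensional ℂ E]
    {M : Type*} [TopologicalSpace M] [ChartedSpace E M] [IsManifold 𝓘(ℝ, E) ∞ M] [T2Space M]
    [SecondCountableTopology M] {wM : Bil E M} (hM : IsSymplectic wM) {S : Set M} (hS : S.Finite)
    {ε : ℝ} (hε : 0 < ε)
    {ι : Type*} (N : ι → Type*) [∀ i, TopologicalSpace (N i)] [∀ i, ChartedSpace E (N i)]
    [∀ i, IsManifold 𝓘(ℝ, E) ∞ (N i)] (wN : ∀ i, Bil E (N i))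
    (hN : ∀ i, ∃ (r : ℝ) (φ : M → E → M) (J : M → N i) (K : M → E × ℂ → N i),
      IsBlowup wM S ε (wN i) r φ J K) :
    ∃ c : Set ι, c.Countable ∧ ∀ i, ∃ j ∈ c, Symplectomorphic (wN j) (wN i) := by
  choose r φ J K hB using hN
  -- the pieces of the family with a definite size of the Darboux balls
  set R : ℕ → ℝ := fun n => ε + 1 / ((n : ℝ) + 1) with hR
  set ρ : ℕ → ℝ := fun n => ε + 1 / (2 * ((n : ℝ) + 1)) with hρ
  have hρε : ∀ n, ε < ρ n := fun n => by
    simp only [hρ]
    have : (0 : ℝ) < 1 / (2 * ((n : ℝ) + 1)) := by positivity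
    linarith
  have hρR : ∀ n, ρ n < R n := fun n => by
    simp only [hρ, hR]
    have h1 : (1 : ℝ) / (2 * ((n : ℝ) + 1)) < 1 / ((n : ℝ) + 1) := by
      apply one_div_lt_one_div_of_lt (by positivity)
      have : (0 : ℝ) ≤ n := n.cast_nonneg
      linarith
    linarith
  have hpiece : ∀ n : ℕ, ∃ c : Set {i : ι // R n < r i}, c.Countable ∧
      ∀ i : {i : ι // R n < r i}, ∃ j ∈ c, Related wM S (φ j) (φ i) (ρ n) := fun n =>
    countable_balls hS (hε.trans (hρε n)) (hρR n) (fun i => (hB i.1).balls) (fun i => i.2)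
  choose c hc hcj using hpiece
  refine ⟨⋃ n, Subtype.val '' (c n), countable_iUnion fun n => (hc n).image _, fun i => ?_⟩
  obtain ⟨n, hn⟩ : ∃ n : ℕ, R n < r i := by
    obtain ⟨n, hn⟩ := exists_nat_one_div_lt (sub_pos.2 (hB i).lt)
    exact ⟨n, by simp only [hR]; linarith⟩
  obtain ⟨j, hj, Γ, hΓ, hΓφ⟩ := hcj n ⟨i, hn⟩
  refine ⟨j.1, mem_iUnion.2 ⟨n, mem_image_of_mem _ hj⟩, ?_⟩
  exact symplectomorphic_of_ambient hM.nondeg (hB j.1) (hB i) hS hε hΓ (hρε n)
    ((hρR n).le.trans j.2.le) ((hρR n).le.trans hn.le)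
    (fun p hp x hx => hΓφ p hp x (ball_subset_closedBall hx))

end Pool.Agent.Results.MP_d1a3be_gt.CountablyManyBlowups
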