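import Pool.Agent.Run7.h115.Expand

/-! In a conformally expandable symplectic manifold (for instance in `ℝ²ⁿ`, in a cotangent bundle,
in the completion of a Liouville domain, in the symplectisation of a contact manifold) any two
`ε`-blowups along a finite set are symplectomorphic, for every `ε > 0`. -/

set_option autoImplicit false
set_option maxSynthPendingDepth 3

open scoped ContDiff Topology Manifold
open Set Metric Function

namespace Pool.Agent.Results.MP_d1a3be_gt.ExpandableUnique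

open Run7.h115

/-- Uniqueness of the `ε`-blowups of a conformally expandable symplectic manifold along a finite
set of points, for every `ε > 0`. -/
theorem result
    {E : Type*} [NormedAddCommGroup E] [InnerProductSpace ℂ E] [FiniteDimensional ℂ E]
    {M : Type*} [TopologicalSpace M] [ChartedSpace E M] [IsManifold 𝓘(ℝ, E) ∞ M] [T2Space M]
    {wM : Bil E M} (hM : IsSymplectic wM) (hexp : ConformallyExpandable wM)
    {S : Set M} (hS : S.Finite) {ε : ℝ} (hε : 0 < ε)
    {N₁ : Type*} [TopologicalSpace N₁] [ChartedSpace E N₁] [IsManifold 𝓘(ℝ, E) ∞ N₁]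
    {w₁ : Bil E N₁} {r₁ : ℝ} {φ₁ : M → E → M} {J₁ : M → N₁} {K₁ : M → E × ℂ → N₁}
    (h₁ : IsBlowup wM S ε w₁ r₁ φ₁ J₁ K₁)
    {N₂ : Type*} [TopologicalSpace N₂] [ChartedSpace E N₂] [IsManifold 𝓘(ℝ, E) ∞ N₂]
    {w₂ : Bil E N₂} {r₂ : ℝ} {φ₂ : M → E → M} {J₂ : M → N₂} {K₂ : M → E × ℂ → N₂}
    (h₂ : IsBlowup wM S ε w₂ r₂ φ₂ J₂ K₂) :
    Symplectomorphic w₁ w₂ := by
  obtain ⟨ρ, hρ1, hρ2⟩ := exists_between (lt_min h₁.lt h₂.lt)
  have hρ₁ : ρ < r₁ := hρ2.trans_le (min_le_left _ _)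
  have hρ₂ : ρ < r₂ := hρ2.trans_le (min_le_right _ _)
  obtain ⟨Γ, hΓ, hΓφ⟩ := related_of_expandable hM.nondeg hexp hS h₁.balls h₂.balls
    (fun p hp => by rw [h₁.φ_center p hp, h₂.φ_center p hp]) (hε.trans hρ1) hρ₁ hρ₂
  exact symplectomorphic_of_ambient hM.nondeg h₁ h₂ hS hε hΓ hρ1 hρ₁.le hρ₂.le
    (fun p hp x hx => hΓφ p hp x (ball_subset_closedBall hx))

end Pool.Agent.Results.MP_d1a3be_gt.ExpandableUnique
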